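import Pool.Agent.P.MP_78d095_pr.Step

set_option autoImplicit false

namespace Pool.Agent.P.MP_78d095_pr.H

open Finset Matrix

theorem dirExp_of_code_inv (k : ℕ) (hk : 1 ≤ k) {ι : Type} [Fintype ι] [DecidableEq ι]
    (hι : Fintype.card ι = 32 * k) (s : ι → Fin (16 * k) → ZMod 2)
    (hsurj : ∀ q, ∃ c : ι → ZMod 2, ∑ i, c i • s i = q)
    (hker : ∀ c : ι → ZMod 2, c ≠ 0 → ∑ i, c i • s i = 0 → 2 * k + 2 ≤ wt c)
    (hdual : ∀ y : Fin (16 * k) → ZMod 2, y ≠ 0 → 2 * k + 2 ≤ ∑ i, (y ⬝ᵥ s i).val) :
    ∃ (a : (Fin (16 * k) → ZMod 2) → (Fin (16 * k) → ZMod 2) → ℝ)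
      (l : (Fin (16 * k) → ZMod 2) → ℕ), DirExp _ a l 0 k ∧
        ∀ g u v, a (g + u) (g + v) = a u v := by
  let S : (ι → ZMod 2) → (Fin (16 * k) → ZMod 2) := fun c => ∑ i, c i • s i
  have hSadd : ∀ c c', S (c + c') = S c + S c' := by
    intro c c'
    simp only [S, Pi.add_apply, add_smul, Finset.sum_add_distrib]
  have hSs : ∀ i, S (Pi.single i 1) = s i := by
    intro i
    simp only [S]
    rw [Finset.sum_eq_single i]
    · simp
    · intro j _ hj
      simp [Pi.single_eq_of_ne hj]
    · simp
  have hs0 : ∀ i, s i ≠ 0 := by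
    intro i hi
    have h1 := hker (Pi.single i 1) (by
      intro h
      have := congrFun h i
      simp at this) (by rw [← hi]; exact hSs i)
    rw [wt_single] at h1
    omega
  have hinj : ∀ i j, s i = s j → i = j := by
    intro i j hij
    by_contra hne
    have h1 := hker (Pi.single i 1 + Pi.single j 1) (by
      intro h
      have := congrFun h i
      simp [Pi.single_eq_of_ne hne] at this) (by
        have := hSadd (Pi.single i 1) (Pi.single j 1)
        rw [hSs, hSs, hij, add_self_cube] at this
        exact this)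
    have h2 := wt_add_le (Pi.single i (1 : ZMod 2)) (Pi.single j 1)
    rw [wt_single, wt_single] at h2
    omega
  let a : (Fin (16 * k) → ZMod 2) → (Fin (16 * k) → ZMod 2) → ℝ :=
    fun q q' => ∑ i, if q' = q + s i then 1 else 0
  have hasum : ∀ (q : Fin (16 * k) → ZMod 2) (F : (Fin (16 * k) → ZMod 2) → ℝ),
      ∑ q', a q q' * F q' = ∑ i, F (q + s i) := by
    intro q F
    simp only [a, Finset.sum_mul]
    rw [Finset.sum_comm]
    simp
  let l : (Fin (16 * k) → ZMod 2) → ℕ := fun q => sInf {m | ∃ c, S c = q ∧ wt c = m}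
  have hl1 : ∀ q, ∃ c, S c = q ∧ wt c = l q := by
    intro q
    obtain ⟨c, hc⟩ := hsurj q
    exact Nat.sInf_mem (s := {m | ∃ c, S c = q ∧ wt c = m}) ⟨wt c, c, hc, rfl⟩
  have hl2 : ∀ c, l (S c) ≤ wt c := fun c => Nat.sInf_le ⟨c, rfl, rfl⟩
  have hlip : ∀ q i, l (q + s i) ≤ l q + 1 := by
    intro q i
    obtain ⟨c, hc, hw⟩ := hl1 q
    have h1 := hl2 (c + Pi.single i 1)
    rw [hSadd, hSs, hc] at h1
    have h2 := wt_add_le c (Pi.single i 1)
    rw [wt_single] at h2
    omega
  have hcard : (Fintype.card (Fin (16 * k) → ZMod 2) : ℝ) = 2 ^ (16 * k) := by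
    simp
  have hinv : ∀ g u v, a (g + u) (g + v) = a u v := by
    intro g u v
    simp only [a]
    refine Finset.sum_congr rfl fun i _ => ?_
    have : g + v = g + u + s i ↔ v = u + s i := by
      rw [add_assoc, add_right_inj]
    simp only [this]
  refine ⟨a, l, ⟨?_, ?_, ?_, ?_, ?_, ?_, ?_, ?_, hcard, ?_, ?_⟩, hinv⟩
  · intro x y
    by_cases h : ∃ i, y = x + s i
    · obtain ⟨i, hi⟩ := h
      right
      simp only [a]
      rw [Finset.sum_eq_single i]
      · rw [if_pos hi]
      · intro j _ hj
        rw [if_neg]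
        intro h
        rw [hi] at h
        exact hj (hinj _ _ (add_left_cancel h)).symm
      · simp
    · left
      push Not at h
      simp only [a]
      exact Finset.sum_eq_zero fun i _ => if_neg (h i)
  · intro x y
    simp only [a]
    refine Finset.sum_congr rfl fun i _ => ?_
    have : y = x + s i ↔ x = y + s i := by
      constructor <;> rintro rfl <;> rw [add_assoc, add_self_cube, add_zero]
    simp only [this]
  · intro x
    simp only [a]
    refine Finset.sum_eq_zero fun i _ => if_neg ?_
    intro h
    exact hs0 i (by simpa using h)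
  · intro x
    have := hasum x (fun _ => 1)
    simp only [mul_one, Finset.sum_const, Finset.card_univ, hι, nsmul_eq_mul] at this
    rw [this]
    push_cast
    ring
  · intro x y
    refine ⟨Equiv.addRight (x + y), ?_, fun u v => ?_⟩
    · simp only [Equiv.coe_addRight]
      rw [← add_assoc, add_self_cube, zero_add]
    · simp only [a, Equiv.coe_addRight]
      refine Finset.sum_congr rfl fun i _ => ?_
      have : v + (x + y) = u + (x + y) + s i ↔ v = u + s i := by
        rw [add_right_comm u, add_left_inj]
      simp only [this]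
  · have := hl2 0
    simp only [S, Pi.zero_apply, zero_smul, Finset.sum_const_zero, wt, ZMod.val_zero] at this
    omega
  · intro x y hxy
    obtain ⟨i, -, hi⟩ := Finset.exists_ne_zero_of_sum_ne_zero hxy
    have : y = x + s i := by
      by_contra h
      exact hi (if_neg h)
    rw [this]
    exact hlip x i
  · intro x hx
    rw [hasum]
    obtain ⟨c, hc, hw⟩ := hl1 x
    rw [← hw]
    simp only [wt, Nat.cast_sum]
    refine Finset.sum_le_sum fun i _ => ?_
    have h : ∀ a : ZMod 2, a = 0 ∨ a = 1 := by decide
    rcases h (c i) with h0 | h1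
    · rw [if_pos]
      · positivity
      · change l (x + s i) = wt c + 1
        have h1 := hlip x i
        by_contra hne
        obtain ⟨c', hc', hw'⟩ := hl1 (x + s i)
        have h2 : c + Pi.single i 1 + c' = 0 := by
          by_contra h3
          have h4 := hker _ h3 (by
            change S _ = 0
            rw [hSadd, hSadd, hc, hc', hSs, add_self_cube])
          have h5 := wt_add_le (c + Pi.single i 1) c'
          rw [wt_add_single c i h0] at h5
          omega
        have h3 : c' = c + Pi.single i 1 := by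
          have := add_self_cube c'
          rw [← h2] at this
          exact add_right_cancel this
        rw [h3, wt_add_single c i h0] at hw'
        omega
    · rw [h1]
      have hv : (1 : ZMod 2).val = 1 := rfl
      rw [hv]
      split_ifs <;> norm_num
  · intro f
    have h1 := poincare_cube s (2 * k + 2) hdual f
    simp only [form, hasum, hcard]
    have h2 : 0 ≤ ∑ x, f x ^ 2 - (∑ x, f x) ^ 2 / 2 ^ (16 * k) := by
      have := sq_sum_le_card_mul_sum_sq (s := Finset.univ) (f := f)
      rw [Finset.card_univ, hcard] at this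
      rw [sub_nonneg, div_le_iff₀ (by positivity)]
      linarith
    push_cast at h1
    nlinarith
  · rw [hcard]
    refine le_trans ?_ (numeric_ball k)
    have h1 := ball_le (ι := ι) (2 * k + 1)
    rw [hι] at h1
    refine le_trans ?_ h1
    have h2 : ∀ x, (if l x < k then (1:ℝ) else 0)
        ≤ ∑ c : ι → ZMod 2, if S c = x then (if wt c ≤ 2 * k + 1 then (1:ℝ) else 0) else 0 := by
      intro x
      have hnn : ∀ c : ι → ZMod 2,
          0 ≤ (if S c = x then (if wt c ≤ 2 * k + 1 then (1:ℝ) else 0) else 0) := by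
        intro c
        split_ifs <;> norm_num
      split_ifs with hx
      · obtain ⟨c, hc, hw⟩ := hl1 x
        refine le_trans ?_ (Finset.single_le_sum (fun c _ => hnn c) (Finset.mem_univ c))
        rw [if_pos hc, if_pos (by omega)]
      · exact Finset.sum_nonneg fun c _ => hnn c
    refine le_trans (Finset.sum_le_sum fun x _ => h2 x) (le_of_eq ?_)
    rw [Finset.sum_comm]
    simp

theorem exists_dirExp_inv (k : ℕ) (hk : 2 ≤ k) :
    ∃ (Q : Type) (_ : Fintype Q) (_ : AddCommGroup Q) (a : Q → Q → ℝ) (l : Q → ℕ) (o : Q),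
      DirExp Q a l o k ∧ ∀ g u v, a (g + u) (g + v) = a u v := by
  obtain ⟨A, hA⟩ := exists_good_matrix k hk
  let s : Fin (16 * k) ⊕ Fin (16 * k) → Fin (16 * k) → ZMod 2 :=
    Sum.elim (fun i => Pi.single i 1) (fun j i => A i j)
  have hS : ∀ c : Fin (16 * k) ⊕ Fin (16 * k) → ZMod 2,
      ∑ i, c i • s i = (fun i => c (Sum.inl i)) + A *ᵥ (fun j => c (Sum.inr j)) := by
    intro c
    ext i
    simp [s, Fintype.sum_sum_type, Finset.sum_apply, Pi.single_apply, Matrix.mulVec, dotProduct,
      mul_comm]
  obtain ⟨a, l, h⟩ := dirExp_of_code_inv k (by omega) (ι := Fin (16 * k) ⊕ Fin (16 * k))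
    (by simp; omega) s (fun q => ⟨Sum.elim q 0, by rw [hS]; simp; exact Matrix.mulVec_zero A⟩) (fun c hc h0 => by
      rw [hS] at h0
      have h1 : (fun i => c (Sum.inl i)) = A *ᵥ (fun j => c (Sum.inr j)) := by
        have := add_self_cube (A *ᵥ (fun j => c (Sum.inr j)))
        rw [← h0] at this
        exact (add_right_cancel this).symm
      have h2 : (fun j => c (Sum.inr j)) ≠ 0 := by
        intro h2
        rw [h2, Matrix.mulVec_zero] at h1
        apply hc
        ext i
        cases i with
        | inl i => exact congrFun h1 i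
        | inr j => exact congrFun h2 j
      have h3 := (hA _ h2).1
      rw [← h1] at h3
      simp only [wt, Fintype.sum_sum_type] at h3 ⊢
      omega) (fun y hy => by
      have h3 := (hA _ hy).2
      refine le_trans h3 (le_of_eq ?_)
      simp only [wt, Fintype.sum_sum_type, s, Sum.elim_inl, Sum.elim_inr, dotProduct_single,
        mul_one]
      congr 1
      refine Finset.sum_congr rfl fun j _ => ?_
      congr 1
      simp [Matrix.mulVec, dotProduct, mul_comm])
  exact ⟨_, inferInstance, inferInstance, a, l, 0, h⟩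

end Pool.Agent.P.MP_78d095_pr.H
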