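import Pool.Agent.P.MP_78d095_pr.H.Step2

set_option autoImplicit false

namespace Pool.Agent.P.MP_78d095_pr.H

open Finset

variable {V : Type} [Fintype V] [DecidableEq V]

theorem mixInf_of_cert [Nonempty V] {a : V → V → ℝ} {D s θ : ℝ} (hD : 0 < D)
    (ha0 : ∀ x y, 0 ≤ a x y) (hsym : ∀ x y, a x y = a y x) (hreg : ∀ x, ∑ y, a x y = D)
    (htr : Trans a) (hC : Cert (form a) s θ) (t : ℕ) (ht : s * D ≤ t) (x y : V) :
    |(lazyWalk a ^ (2 * t)) x y / ((∑ z, a y z) / ∑ u, ∑ v, a u v) - 1| ≤ θ - 1 := by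
  set P := lazyWalk a with hPdef
  have hP : ∀ x y, P x y = (if x = y then (1:ℝ)/2 else 0) + a x y / (2 * D) := by
    intro x y
    simp only [hPdef, lazyWalk, Matrix.of_apply, hreg]
  have hPs : ∀ x y, P x y = P y x := by
    intro x y
    rw [hP, hP, hsym x y]
    simp only [eq_comm]
  have hreg' : ∀ y, ∑ x, a x y = D := fun y => by
    simp only [hsym _ y, hreg]
  have hquad : ∀ f : V → ℝ, ∑ x, ∑ y, f x * P x y * f y
      = (1 / 2) * ∑ x, f x ^ 2 + (∑ x, ∑ y, a x y * (f x * f y)) / (2 * D) := by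
    intro f
    simp only [hP, mul_add, add_mul, Finset.sum_add_distrib, mul_ite, ite_mul, mul_zero,
      zero_mul, Finset.sum_ite_eq, Finset.mem_univ, if_true]
    congr 1
    · rw [Finset.mul_sum]
      exact Finset.sum_congr rfl fun x _ => by ring
    · rw [Finset.sum_div]
      refine Finset.sum_congr rfl fun x _ => ?_
      rw [Finset.sum_div]
      exact Finset.sum_congr rfl fun y _ => by ring
  have hA : ∀ f : V → ℝ, ∑ x, ∑ y, a x y * f x ^ 2 = D * ∑ x, f x ^ 2 := by
    intro f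
    simp only [← Finset.sum_mul, hreg, ← Finset.mul_sum]
  have hB : ∀ f : V → ℝ, ∑ x, ∑ y, a x y * f y ^ 2 = D * ∑ x, f x ^ 2 := by
    intro f
    rw [Finset.sum_comm]
    simp only [← Finset.sum_mul, hreg', ← Finset.mul_sum]
  have hsq : ∀ (f : V → ℝ) (c : ℝ), c ^ 2 = 1 → ∑ x, ∑ y, a x y * (f x + c * f y) ^ 2
      = 2 * D * ∑ x, f x ^ 2 + 2 * c * ∑ x, ∑ y, a x y * (f x * f y) := by
    intro f c hc
    have : ∀ x y, a x y * (f x + c * f y) ^ 2
        = a x y * f x ^ 2 + a x y * f y ^ 2 + 2 * c * (a x y * (f x * f y)) := by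
      intro x y
      have : (f x + c * f y) ^ 2 = f x ^ 2 + c ^ 2 * f y ^ 2 + 2 * c * (f x * f y) := by ring
      rw [this, hc]
      ring
    simp only [this, Finset.sum_add_distrib, hA, hB, ← Finset.mul_sum]
    ring
  have htrace : (P ^ (2 * t)).trace ≤ θ := by
    refine trace_pow_le P hPs (κ := 1 / (2 * D)) (by positivity) hC (fun f => ?_) (fun f => ?_)
      _ ?_
    · rw [hquad]
      have := hsq f (-1) (by norm_num)
      simp only [neg_mul, one_mul, ← sub_eq_add_neg] at this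
      simp only [form, this]
      field_simp
      ring
    · rw [hquad]
      have h1 := hsq f 1 (by norm_num)
      have h2 : 0 ≤ ∑ x, ∑ y, a x y * (f x + 1 * f y) ^ 2 :=
        Finset.sum_nonneg fun x _ => Finset.sum_nonneg fun y _ =>
          mul_nonneg (ha0 x y) (sq_nonneg _)
      have h3 : (1 / 2) * ∑ x, f x ^ 2 + (∑ x, ∑ y, a x y * (f x * f y)) / (2 * D)
          = (∑ x, ∑ y, a x y * (f x + 1 * f y) ^ 2) / (4 * D) := by
        rw [h1]
        field_simp
        ring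
      rw [h3]
      positivity
    · push_cast
      rw [show 2 * (t:ℝ) * (1 / (2 * D)) = t / D by field_simp, le_div_iff₀ hD]
      exact ht
  set n : ℝ := (Fintype.card V : ℝ) with hn
  have hnpos : 0 < n := by
    rw [hn]; exact_mod_cast Fintype.card_pos
  have hdiag : ∀ y, (P ^ (2 * t)) y y = (P ^ (2 * t)) x x := by
    intro y
    obtain ⟨e, hex, he⟩ := htr x y
    rw [← hex]
    refine pow_equiv e (fun u v => ?_) _ _ _
    rw [hP, hP, he]
    simp
  have htr2 : (P ^ (2 * t)).trace = n * (P ^ (2 * t)) x x := by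
    simp only [Matrix.trace, Matrix.diag, hdiag, Finset.sum_const, Finset.card_univ,
      nsmul_eq_mul, hn]
  have hPt : ∀ (k : ℕ) (u v : V), (P ^ k) u v = (P ^ k) v u := by
    intro k u v
    have h1 : P.transpose = P := by
      ext i j
      simp [Matrix.transpose_apply, hPs j i]
    have h2 : (P ^ k).transpose = P ^ k := by rw [Matrix.transpose_pow, h1]
    conv_lhs => rw [← h2]
    rfl
  have hsq2 : ∀ u v, (P ^ (2 * t)) u v = ∑ z, (P ^ t) u z * (P ^ t) v z := by
    intro u v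
    rw [two_mul, pow_add, Matrix.mul_apply]
    refine Finset.sum_congr rfl fun z _ => ?_
    rw [hPt t z v]
  have hrow : ∀ u, ∑ z, (P ^ t) u z = 1 :=
    pow_row_sum (lazy_row_sum (fun z => by rw [hreg]; exact hD)) t
  have hpi : (∑ z : V, a y z) / (∑ u : V, ∑ v : V, a u v) = 1 / n := by
    simp only [hreg, Finset.sum_const, Finset.card_univ, nsmul_eq_mul, ← hn]
    field_simp
  have hcov : ∀ u v, ∑ z, ((P ^ t) u z - 1 / n) * ((P ^ t) v z - 1 / n)
      = (P ^ (2 * t)) u v - 1 / n := by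
    intro u v
    have : ∀ z, ((P ^ t) u z - 1 / n) * ((P ^ t) v z - 1 / n)
        = (P ^ t) u z * (P ^ t) v z - 1 / n * (P ^ t) u z - 1 / n * (P ^ t) v z
          + 1 / n * (1 / n) := fun z => by ring
    simp only [this, Finset.sum_add_distrib, Finset.sum_sub_distrib, ← Finset.mul_sum, hrow,
      Finset.sum_const, Finset.card_univ, nsmul_eq_mul, ← hn, ← hsq2]
    field_simp
    ring
  have hpm : ∀ c : ℝ, c ^ 2 = 1 → c * ((P ^ (2 * t)) x y - 1 / n) ≤ (P ^ (2 * t)) x x - 1 / n := by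
    intro c hc
    have h1 : ∑ z, 2 * c * (((P ^ t) x z - 1 / n) * ((P ^ t) y z - 1 / n))
        ≤ ∑ z, (((P ^ t) x z - 1 / n) * ((P ^ t) x z - 1 / n)
          + ((P ^ t) y z - 1 / n) * ((P ^ t) y z - 1 / n)) := by
      refine Finset.sum_le_sum fun z _ => ?_
      set A := (P ^ t) x z - 1 / n
      set B := (P ^ t) y z - 1 / n
      have : (c * A - B) ^ 2 = c ^ 2 * A ^ 2 - 2 * c * (A * B) + B ^ 2 := by ring
      rw [hc] at this
      nlinarith [sq_nonneg (c * A - B)]
    rw [← Finset.mul_sum, Finset.sum_add_distrib, hcov, hcov, hcov, hdiag y] at h1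
    linarith
  rw [htr2] at htrace
  rw [hpi]
  have e : (P ^ (2 * t)) x y / (1 / n) - 1 = n * ((P ^ (2 * t)) x y - 1 / n) := by
    field_simp
  have e2 : n * ((P ^ (2 * t)) x x - 1 / n) = n * (P ^ (2 * t)) x x - 1 := by
    field_simp
  have h1 := mul_le_mul_of_nonneg_left (hpm 1 (by norm_num)) hnpos.le
  have h2 := mul_le_mul_of_nonneg_left (hpm (-1) (by norm_num)) hnpos.le
  rw [e, abs_le]
  constructor <;> linarith

theorem tv_lower {w : V → V → ℝ} {D lam δ δ' : ℝ} (hD : 0 < D) (hlam : 0 ≤ lam)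
    (hw : ∀ x y, 0 ≤ w x y) (hlo : ∀ x, D / 2 ≤ ∑ y, w x y) (hhi : ∀ x, ∑ y, w x y ≤ 2 * D)
    {φ : V → ℝ} (hφ : ∀ x, 0 ≤ φ x) (hL : ∀ x, ∑ y, w x y * (φ y - φ x) ≤ lam * φ x)
    (hbad : ∑ x, (if φ x < 1 then (1:ℝ) else 0) ≤ δ * Fintype.card V)
    (o : V) (T : ℕ) (hT : Real.exp (lam / D * T) * φ o ≤ δ') :
    1 - δ' - 4 * δ ≤
      1 / 2 * ∑ y, |(lazyWalk w ^ T) o y - (∑ z, w y z) / ∑ u, ∑ v, w u v| := by
  have hW : ∀ x, 0 < ∑ z, w x z := fun x => lt_of_lt_of_le (by positivity) (hlo x)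
  set P := lazyWalk w with hP
  have hP0 : ∀ x y, 0 ≤ P x y := lazy_nonneg hw
  have hstep : ∀ x, ∑ y, P x y * φ y ≤ (1 + lam / D) * φ x := by
    intro x
    rw [lazy_apply_sum hW]
    have h1 : (∑ y, w x y * (φ y - φ x)) / (2 * ∑ z, w x z) ≤ lam / D * φ x := by
      rw [div_le_iff₀ (by have := hW x; positivity)]
      have h2 : lam * φ x ≤ lam / D * φ x * (2 * ∑ z, w x z) := by
        have h3 : lam / D * φ x * D ≤ lam / D * φ x * (2 * ∑ z, w x z) :=
          mul_le_mul_of_nonneg_left (by linarith [hlo x]) (by have := hφ x; positivity)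
        have h4 : lam / D * φ x * D = lam * φ x := by field_simp
        linarith
      exact (hL x).trans h2
    linarith
  have hpow := pow_apply_le hP0 (by positivity) hstep T o
  have hexp : (1 + lam / D) ^ T ≤ Real.exp (lam / D * T) := by
    rw [mul_comm, Real.exp_nat_mul]
    exact pow_le_pow_left₀ (by positivity) (by linarith [Real.add_one_le_exp (lam / D)]) T
  have hgood : ∑ y, (if φ y < 1 then 0 else (P ^ T) o y) ≤ δ' := by
    refine le_trans (Finset.sum_le_sum fun y _ => ?_)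
      (hpow.trans ((mul_le_mul_of_nonneg_right hexp (hφ o)).trans hT))
    have := pow_nonneg_entry hP0 T o y
    split_ifs with h1
    · exact mul_nonneg this (hφ y)
    · nlinarith [not_lt.mp h1]
  have hrow : ∑ y, (P ^ T) o y = 1 := pow_row_sum (lazy_row_sum hW) T o
  have : Nonempty V := ⟨o⟩
  set n : ℝ := (Fintype.card V : ℝ) with hn
  have hnpos : 0 < n := by
    rw [hn]; exact_mod_cast Fintype.card_pos
  have htot : n * (D / 2) ≤ ∑ a : V, ∑ b : V, w a b := by
    have := Finset.sum_le_sum fun a (_ : a ∈ Finset.univ) => hlo a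
    simpa [hn] using this
  have htpos : 0 < ∑ a : V, ∑ b : V, w a b := lt_of_lt_of_le (by positivity) htot
  set π : V → ℝ := fun y => (∑ z : V, w y z) / (∑ a : V, ∑ b : V, w a b) with hπ
  have hπ0 : ∀ y, 0 < π y := fun y => div_pos (hW y) htpos
  have hπ1 : ∀ y, π y ≤ 4 / n := by
    intro y
    simp only [hπ]
    rw [div_le_div_iff₀ htpos hnpos]
    nlinarith [hhi y]
  have hπs : ∑ y, π y = 1 := by
    simp only [hπ]
    rw [← Finset.sum_div, div_self htpos.ne']
  have key : ∀ y, (P ^ T) o y + π y - 2 * (if φ y < 1 then 0 else (P ^ T) o y)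
      - 8 / n * (if φ y < 1 then (1:ℝ) else 0) ≤ |(P ^ T) o y - π y| := by
    intro y
    split_ifs with h1
    · have h2 := hπ1 y
      have h3 : 8 / n = 2 * (4 / n) := by ring
      have := le_abs_self ((P ^ T) o y - π y)
      linarith
    · have := neg_le_abs ((P ^ T) o y - π y)
      linarith
  have hsum := Finset.sum_le_sum fun y (_ : y ∈ Finset.univ) => key y
  simp only [Finset.sum_sub_distrib, Finset.sum_add_distrib, ← Finset.mul_sum, hrow, hπs] at hsum
  have h5 : 8 / n * ∑ x, (if φ x < 1 then (1:ℝ) else 0) ≤ 8 / n * (δ * n) :=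
    mul_le_mul_of_nonneg_left hbad (by positivity)
  have h6 : 8 / n * (δ * n) = 8 * δ := by field_simp
  linarith

end Pool.Agent.P.MP_78d095_pr.H
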