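import Pool.Agent.P.MP_78d095_pr.H.Code2

set_option autoImplicit false

namespace Pool.Agent.P.MP_78d095_pr.H

open Finset

/-- scaled strength of the bias -/
noncomputable def tk (κ : ℝ) (k m : ℕ) : ℝ := κ * tt k m

/-- scaled radial profile -/
noncomputable def ak (κ : ℝ) (k m : ℕ) : ℝ := 1 - κ * (1 - al k m)

variable {κ : ℝ}

theorem tk_nonneg (h0 : 0 ≤ κ) (k m : ℕ) : 0 ≤ tk κ k m := mul_nonneg h0 (tt_nonneg k m)

theorem tk_le' (h0 : 0 ≤ κ) (k m : ℕ) : tk κ k m ≤ κ / 2 := by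
  have := mul_le_mul_of_nonneg_left (tt_le k m) h0
  unfold tk
  linarith

theorem tk_le (h0 : 0 ≤ κ) (h1 : κ ≤ 1) (k m : ℕ) : tk κ k m ≤ 1 / 2 := by
  have := tk_le' h0 k m
  linarith

theorem ak_mono (h0 : 0 ≤ κ) (k : ℕ) {m m' : ℕ} (h : m ≤ m') : ak κ k m ≤ ak κ k m' := by
  have := mul_le_mul_of_nonneg_left (al_mono k h) h0
  unfold ak
  linarith

theorem ak_far {k m : ℕ} (h : k ≤ m) : ak κ k m = 1 := by
  unfold ak
  rw [al_far h]
  ring

theorem ak_ge (h1 : κ ≤ 1) {k : ℕ} (hk : 1 ≤ k) (m : ℕ) : 1 / 2 ≤ ak κ k m := by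
  have a1 := al_ge hk m
  have a2 := al_le k m
  have := mul_le_mul_of_nonneg_right h1 (show 0 ≤ 1 - al k m by linarith)
  unfold ak
  linarith

theorem ak_zero_le (h0 : 0 ≤ κ) {k : ℕ} (hk : 2 ≤ k) : ak κ k 0 ≤ 1 - κ / 3072 := by
  have := mul_le_mul_of_nonneg_left (al_zero_le hk) h0
  unfold ak
  linarith

theorem err_bound2 (h0 : 0 ≤ κ) (h1κ : κ ≤ 1) {k m : ℕ} (hk : 1 ≤ k) {γ u v : ℝ} (hγ1 : 1 / (32 * k) ≤ γ) (hγ2 : γ ≤ 1)
    (_hu : 0 ≤ u) (hv : 0 ≤ v) (huv : u + v = 32 * k) (hvm : m ≤ k → v ≤ m) :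
    u * ((ak κ k (m + 1) - ak κ k m) * (2 + γ) - tk κ k (m + 1) * γ * ak κ k m)
      + v * (tk κ k m * γ * ak κ k m) ≤ γ * ak κ k m := by
  have hk1 : (1:ℝ) ≤ k := by exact_mod_cast hk
  have hγ0 : 0 < γ := lt_of_lt_of_le (by positivity) hγ1
  have hα := ak_ge h1κ hk m
  rcases le_or_gt k m with h | h
  · rw [ak_far h, ak_far (h.trans (Nat.le_succ m))]
    simp only [tk, tt, Nat.sub_eq_zero_of_le h, Nat.sub_eq_zero_of_le (h.trans (Nat.le_succ m))]
    simp [hγ0.le]
  · have hv1 : v ≤ k := (hvm h.le).trans (by exact_mod_cast h.le)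
    obtain ⟨x, hx⟩ : ∃ x, k - m = x + 1 := ⟨k - m - 1, by omega⟩
    have hx' : k - (m + 1) = x := by omega
    have hx0 : (0:ℝ) ≤ x := by positivity
    have e1 : ak κ k (m + 1) - ak κ k m = tk κ k (m + 1) / (384 * k) := by
      simp only [ak, tk, al, tt, hx, hx']
      push_cast
      field_simp
      ring
    have e2 : tk κ k m = tk κ k (m + 1) + κ / (2 * k) := by
      simp only [tk, tt, hx, hx']
      push_cast
      field_simp
    rw [e1, e2]
    have ht := tk_nonneg h0 k (m + 1)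
    set t := tk κ k (m + 1)
    set α := ak κ k m
    have h1 : v * (κ / (2 * k)) ≤ 1 / 2 := by
      rw [← mul_div_assoc, div_le_iff₀ (by positivity)]
      nlinarith
    have h2 : u * (t / (384 * k) * (2 + γ)) ≤ t / 4 := by
      have : t / (384 * k) * (2 + γ) ≤ t / (384 * k) * 3 :=
        mul_le_mul_of_nonneg_left (by linarith) (by positivity)
      have h3 : u * (t / (384 * k) * (2 + γ)) ≤ (32 * k) * (t / (384 * k) * 3) :=
        mul_le_mul (by linarith) this (by positivity) (by positivity)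
      have h4 : (32 * k) * (t / (384 * k) * 3) = t / 4 := by
        field_simp
        ring
      linarith
    have h3 : 15 / 32 ≤ (u - v) * (γ * α) := by
      have a1 : 30 * (k:ℝ) ≤ u - v := by linarith
      have a2 : 1 / (32 * k) * (1 / 2) ≤ γ * α := mul_le_mul hγ1 hα (by norm_num) hγ0.le
      have a3 := mul_le_mul a1 a2 (by positivity) (by linarith)
      have a4 : 30 * (k:ℝ) * (1 / (32 * k) * (1 / 2)) = 15 / 32 := by
        field_simp
        ring
      linarith
    have h4 := mul_le_mul_of_nonneg_left h3 ht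
    have h5 : 0 ≤ γ * α := by positivity
    have h6 := mul_le_mul_of_nonneg_right h1 h5
    nlinarith

/-- perturbed weights on the base -/
noncomputable def vw2 (κ : ℝ) {Q : Type} (M k : ℕ) (a : Q → Q → ℝ) (l : Q → ℕ) :
    Q × (Bool × Fin M) → Q × (Bool × Fin M) → ℝ := fun p p' =>
  a p.1 p'.1 * (1 + (if l p'.1 = l p.1 + 1 then tk κ k (l p'.1) * sg p'.2.1 else 0)
    + (if l p.1 = l p'.1 + 1 then tk κ k (l p.1) * sg p.2.1 else 0))

/-- test function on the base -/
noncomputable def psi2 (κ : ℝ) {Q : Type} (M k : ℕ) (l : Q → ℕ) (γ : ℝ) :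
    Q × (Bool × Fin M) → ℝ := fun p => ak κ k (l p.1) * (1 + if p.2.1 then γ else 0)

theorem vw_factor2 (h0 : 0 ≤ κ) {k m m' : ℕ} (b b' : Bool) :
    1 - κ / 2 ≤ (1 + (if m' = m + 1 then tk κ k m' * sg b' else 0)
      + (if m = m' + 1 then tk κ k m * sg b else 0)) ∧
    (1 + (if m' = m + 1 then tk κ k m' * sg b' else 0)
      + (if m = m' + 1 then tk κ k m * sg b else 0)) ≤ 1 + κ / 2 := by
  have h1 := tk_nonneg h0 k m
  have h2 := tk_nonneg h0 k m'
  have h3 := tk_le' h0 k m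
  have h4 := tk_le' h0 k m'
  split_ifs with ha hb hb
  · omega
  all_goals
    cases b <;> cases b' <;> (try simp only [sg, if_true, Bool.false_eq_true, if_false]) <;>
      constructor <;> linarith

theorem lyap_move2 (h0κ : 0 ≤ κ) (h1κ : κ ≤ 1) {Q : Type} [Fintype Q] {a : Q → Q → ℝ} {l : Q → ℕ} {o : Q} {k : ℕ}
    (hQ : DirExp Q a l o k) (hk : 1 ≤ k) (M : ℕ) {γ : ℝ} (hγ1 : 1 / (32 * k) ≤ γ) (hγ2 : γ ≤ 1)
    (p : Q × (Bool × Fin M)) :
    ∑ p', vw2 κ M k a l p p' * (psi2 κ M k l γ p' - psi2 κ M k l γ p)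
      ≤ M * ak κ k (l p.1) * γ * (32 * k * sg p.2.1 + 1) := by
  obtain ⟨q, b, i⟩ := p
  have hk1 : (1:ℝ) ≤ k := by exact_mod_cast hk
  have hγ0 : 0 < γ := lt_of_lt_of_le (by positivity) hγ1
  have ha0 : ∀ x y, 0 ≤ a x y := fun x y => by rcases hQ.zo x y with h | h <;> simp [h]
  set m := l q with hm
  set α := ak κ k m with hα
  have hα0 : 0 ≤ α := le_trans (by norm_num) (ak_ge h1κ hk m)
  set A := (ak κ k (m + 1) - α) * (2 + γ) - tk κ k (m + 1) * γ * α with hA
  set B := tk κ k m * γ * α with hB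
  have hM0 : (0:ℝ) ≤ M := by positivity
  have key : ∀ q', ∑ z : Bool × Fin M, vw2 κ M k a l (q, b, i) (q', z)
        * (psi2 κ M k l γ (q', z) - psi2 κ M k l γ (q, b, i))
      ≤ a q q' * (M * α * γ * sg b) + M * A * (a q q' * (1 - if l q' = m + 1 then 0 else 1))
        + M * B * (a q q' * if l q' = m + 1 then 0 else 1) := by
    intro q'
    rcases hQ.zo q q' with h0 | h1
    · simp [vw2, h0]
    have hlip := hQ.lip q q' (by rw [h1]; norm_num)
    rw [Fintype.sum_prod_type]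
    simp only [vw2, psi2, h1, one_mul, Finset.sum_const, Finset.card_univ, Fintype.card_fin,
      nsmul_eq_mul, Fintype.sum_bool, ← hm, ← hα, if_true, Bool.false_eq_true, if_false]
    have ht0 := tk_nonneg h0κ k m
    have ht1 := tk_le h0κ h1κ k m
    by_cases hup : l q' = m + 1
    · have hdn : ¬ m = m + 1 + 1 := by omega
      simp only [hup, if_true, hdn, if_false, hA]
      have h2 : 0 ≤ ak κ k (m + 1) - α := sub_nonneg.mpr (ak_mono h0κ k (Nat.le_succ m))
      have h3 := tk_nonneg h0κ k (m + 1)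
      have h4 : 0 ≤ M * ((ak κ k (m + 1) - α) * tk κ k (m + 1) * γ) := by positivity
      cases b <;> simp only [sg, if_true, Bool.false_eq_true, if_false] <;> nlinarith
    · have h2 : 0 ≤ α - ak κ k (l q') := sub_nonneg.mpr (ak_mono h0κ k (by omega))
      simp only [hup, if_false, hB]
      have h5 : 0 ≤ M * (tk κ k m * γ * α) := by positivity
      by_cases hdn : m = l q' + 1
      · rw [if_pos hdn]
        cases b <;> simp only [sg, if_true, Bool.false_eq_true, if_false]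
        · have h4 : 0 ≤ M * ((1 + tk κ k m) * (α - ak κ k (l q')) * (2 + γ)) := by positivity
          nlinarith
        · have h6 : 0 ≤ 1 - tk κ k m := by linarith
          have h4 : 0 ≤ M * ((1 - tk κ k m) * (α - ak κ k (l q')) * (2 + γ)) := by positivity
          nlinarith
      · rw [if_neg hdn]
        have h4 : 0 ≤ M * ((α - ak κ k (l q')) * (2 + γ)) := by positivity
        cases b <;> simp only [sg, if_true, Bool.false_eq_true, if_false] <;> nlinarith
  rw [Fintype.sum_prod_type]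
  refine le_trans (Finset.sum_le_sum fun q' _ => key q') ?_
  set v := ∑ q', a q q' * (if l q' = m + 1 then (0:ℝ) else 1) with hv
  set u := ∑ q', a q q' * (1 - if l q' = m + 1 then (0:ℝ) else 1) with hu
  have huv : u + v = 32 * k := by
    rw [hu, hv, ← Finset.sum_add_distrib, ← hQ.reg q]
    exact Finset.sum_congr rfl fun q' _ => by ring
  have hu0 : 0 ≤ u := Finset.sum_nonneg fun q' _ => mul_nonneg (ha0 _ _) (by
    split_ifs <;> norm_num)
  have hv0 : 0 ≤ v := Finset.sum_nonneg fun q' _ => mul_nonneg (ha0 _ _) (by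
    split_ifs <;> norm_num)
  have herr := err_bound2 h0κ h1κ (m := m) hk hγ1 hγ2 hu0 hv0 huv (fun h => hQ.up q h)
  simp only [Finset.sum_add_distrib, ← Finset.mul_sum, ← Finset.sum_mul, hQ.reg, ← hu, ← hv]
  have := mul_le_mul_of_nonneg_left herr hM0
  rw [← hα, ← hA, ← hB] at this
  nlinarith

/-- The weight function is invariant under left multiplication for some group structure. -/
def Cay {X : Type} (a : X → X → ℝ) : Prop :=
  ∃ _ : Group X, ∀ g x y : X, a (g * x) (g * y) = a x y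

theorem comb_cay {P X : Type} [AddGroup P] (b : P → Bool) (hb0 : b 0 = false)
    (hb : ∀ p p', b (p + p') = xor (b p) (b p')) {v : P → P → ℝ} {w : X → X → ℝ}
    (hv : ∀ g p p', v (g + p) (g + p') = v p p') (hw : Cay w) : Cay (comb b v w) := by
  classical
  obtain ⟨_, hw⟩ := hw
  have hneg : ∀ p, b (-p) = b p := by
    intro p
    have := hb (-p) p
    rw [neg_add_cancel, hb0] at this
    revert this
    cases b (-p) <;> cases b p <;> simp
  let m : Mul (P × (X × X)) := ⟨fun z z' => (z.1 + z'.1,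
    if b z.1 then (z.2.1 * z'.2.2, z.2.2 * z'.2.1) else (z.2.1 * z'.2.1, z.2.2 * z'.2.2))⟩
  let o : One (P × (X × X)) := ⟨(0, (1, 1))⟩
  let i : Inv (P × (X × X)) := ⟨fun z => (-z.1,
    if b z.1 then (z.2.2⁻¹, z.2.1⁻¹) else (z.2.1⁻¹, z.2.2⁻¹))⟩
  have hm : ∀ z z' : P × (X × X), z * z' = (z.1 + z'.1,
    if b z.1 then (z.2.1 * z'.2.2, z.2.2 * z'.2.1) else (z.2.1 * z'.2.1, z.2.2 * z'.2.2)) :=
    fun _ _ => rfl
  have ho : (1 : P × (X × X)) = (0, (1, 1)) := rfl
  have hi : ∀ z : P × (X × X), z⁻¹ = (-z.1,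
    if b z.1 then (z.2.2⁻¹, z.2.1⁻¹) else (z.2.1⁻¹, z.2.2⁻¹)) := fun _ => rfl
  refine ⟨Group.ofLeftAxioms ?_ ?_ ?_, ?_⟩
  · rintro ⟨p, x, y⟩ ⟨p', x', y'⟩ ⟨p'', x'', y''⟩
    simp only [hm, hb, add_assoc]
    cases b p <;> cases b p' <;> simp [mul_assoc]
  · rintro ⟨p, x, y⟩
    simp [hm, ho, hb0]
  · rintro ⟨p, x, y⟩
    simp only [hm, ho, hi, hneg, neg_add_cancel]
    cases b p <;> simp
  · rintro ⟨g, c, d⟩ ⟨p, x, y⟩ ⟨p', x', y'⟩
    change comb b v w (g + p, if b g then (c * y, d * x) else (c * x, d * y))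
      (g + p', if b g then (c * y', d * x') else (c * x', d * y')) = _
    simp only [comb, hv, hb, add_right_inj]
    cases b g <;> cases b p <;> simp [hw, and_comm]

/-- Extra data: small perturbation and Cayley structure. -/
structure Extra (κ : ℝ) (X : Type) (a w : X → X → ℝ) : Prop where
  lo : ∀ x y, (1 - κ / 2) * a x y ≤ 1 * w x y
  hi : ∀ x y, 1 * w x y ≤ (1 + κ / 2) * a x y
  cay : Cay a

theorem stage_step2 (h0κ : 0 ≤ κ) (h1κ : κ ≤ 1) {Q : Type} [Fintype Q] {aQ : Q → Q → ℝ} {l : Q → ℕ} {oQ : Q} {k : ℕ}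
    (hQ : DirExp Q aQ l oQ k) (hk : 2 ≤ k) {M : ℕ} (hM : 1 ≤ M) {X : Type} [Fintype X]
    {a w : X → X → ℝ} {D : ℝ} {φ : X → ℝ} {o : X} {τ τ' η g : ℝ} (hη : 0 < η) (_hg : 0 ≤ g)
    (hτ1 : 1 ≤ τ') (hτ2 : τ' < τ) (hτ3 : τ ≤ 2) (hD : 0 ≤ D)
    (hX : Stage X a w D φ o (16 * τ' / (2 * M)) (τ' * (2 * M)) (Real.exp η) g η)
    (hk1 : D * (1 + 1 / (2 * (τ / τ' - 1))) ≤ 2 * k) (hk2 : M ≤ η * k) (hk3 : 8 ≤ η * k)
    (hk4 : 1 ≤ (τ - τ') * k) :
    Stage ((Q × (Bool × Fin M)) × (X × X))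
      (comb (fun p => p.2.1) (fun p p' => aQ p.1 p'.1) a)
      (comb (fun p => p.2.1) (vw2 κ M k aQ l) w) (64 * k * M + D)
      (fun z => psi2 κ M k l (τ' / (32 * k)) z.1 * φ z.2.2) ((oQ, (false, ⟨0, hM⟩)), (o, o))
      (16 * τ / M) (τ * M) (Real.exp (4 * η)) ((1 - κ / 3072) * g) (4 * η) := by
  have hM1 : (1:ℝ) ≤ M := by exact_mod_cast hM
  have hk0 : (2:ℝ) ≤ k := by exact_mod_cast hk
  have haQ0 : ∀ x y, 0 ≤ aQ x y := fun x y => by rcases hQ.zo x y with h | h <;> simp [h]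
  have ha0 : ∀ x y, 0 ≤ a x y := fun x y => by rcases hX.zo x y with h | h <;> simp [h]
  set γ := τ' / (32 * k) with hγ
  have hγ1 : 1 / (32 * k) ≤ γ := div_le_div_of_nonneg_right hτ1 (by positivity)
  have hγ0 : 0 ≤ γ := le_trans (by positivity) hγ1
  have hγ2 : γ ≤ 1 := by
    rw [hγ, div_le_iff₀ (by positivity)]
    linarith
  have hγ3 : γ * (32 * k) = τ' := by
    rw [hγ]; field_simp
  have hψ0 : ∀ p, 0 ≤ psi2 κ M k l γ p := by
    intro p
    have := ak_ge h1κ (k := k) (by omega) (l p.1)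
    simp only [psi2]
    split_ifs <;> positivity
  refine ⟨comb_zo _ (fun p p' => hQ.zo _ _) (fun p => hQ.diag _) hX.zo,
    comb_symm _ (fun p p' => hQ.symm _ _) hX.symm, comb_diag _ (fun p => hQ.diag _) hX.diag,
    fun z => ?_, comb_trans _ hX.trans ?_, comb_symm _ (fun p p' => ?_) hX.wsymm,
    comb_mono _ (fun p p' => ?_) hX.wlo, comb_mono _ (fun p p' => ?_) hX.whi, ?_,
    fun z => mul_nonneg (hψ0 _) (hX.phi0 _), fun z => ?_, ?_, ?_⟩
  · have := comb_sum (fun p : Q × (Bool × Fin M) => p.2.1) (fun p p' => aQ p.1 p'.1) a z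
      (fun _ => 1)
    simp only [mul_one, hX.reg, ite_self] at this
    rw [this, Fintype.sum_prod_type]
    simp only [Finset.sum_const, Finset.card_univ, nsmul_eq_mul, ← Finset.mul_sum, hQ.reg,
      Fintype.card_prod, Fintype.card_bool, Fintype.card_fin]
    push_cast
    ring
  · rintro ⟨q, b, i⟩ ⟨q', b', i'⟩
    obtain ⟨e, he, hea⟩ := hQ.trans q q'
    by_cases hb : b = b'
    · exact ⟨Equiv.prodCongr e (Equiv.prodCongr (Equiv.refl _) (Equiv.swap i i')),
        by simp [he, hb], fun u u' => hea _ _, Or.inl fun u => rfl⟩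
    · refine ⟨Equiv.prodCongr e (Equiv.prodCongr Equiv.boolNot (Equiv.swap i i')),
        ?_, fun u u' => hea _ _, Or.inr fun u => rfl⟩
      have : (!b) = b' := by
        revert hb
        cases b <;> cases b' <;> simp
      simp [he, this]
  · simp only [vw2, hQ.symm p.1 p'.1]
    ring
  · have := mul_le_mul_of_nonneg_left
      (vw_factor2 h0κ (k := k) (m := l p.1) (m' := l p'.1) p.2.1 p'.2.1).1 (haQ0 p.1 p'.1)
    simp only [vw2]
    nlinarith [haQ0 p.1 p'.1]
  · have := mul_le_mul_of_nonneg_left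
      (vw_factor2 h0κ (k := k) (m := l p.1) (m' := l p'.1) p.2.1 p'.2.1).2 (haQ0 p.1 p'.1)
    simp only [vw2]
    nlinarith [haQ0 p.1 p'.1]
  · have hε : 0 < 2 * (τ / τ' - 1) := by
      have : 1 < τ / τ' := by rw [lt_div_iff₀ (by linarith)]; linarith
      linarith
    refine cert_step hQ hM hε hη ha0 hX.symm hX.reg hD ?_ ?_ hk1 hk2
    · have : 16 * τ / M * (1 / (2 + 2 * (τ / τ' - 1))) = 16 * τ' / (2 * M) := by
        have h1 : 2 + 2 * (τ / τ' - 1) = 2 * τ / τ' := by ring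
        have h2 : τ ≠ 0 := by linarith
        have h3 : τ' ≠ 0 := by linarith
        rw [h1]
        field_simp
      rw [this]
      exact hX.cert
    · rw [div_mul_cancel₀ _ (by linarith)]
      linarith
  · obtain ⟨p, x, y⟩ := z
    rw [comb_sum]
    simp only [sub_self, mul_zero, Finset.sum_const_zero]
    have h1 := mul_le_mul_of_nonneg_right (lyap_move2 h0κ h1κ hQ (by omega) M hγ1 hγ2 p) (hX.phi0 y)
    have h2 := mul_le_mul_of_nonneg_left (hX.lyap y) (hψ0 p)
    have e1 : ∑ p', vw2 κ M k aQ l p p' * (psi2 κ M k l γ p' * φ y - psi2 κ M k l γ p * φ y)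
        = (∑ p', vw2 κ M k aQ l p p' * (psi2 κ M k l γ p' - psi2 κ M k l γ p)) * φ y := by
      rw [Finset.sum_mul]
      exact Finset.sum_congr rfl fun p' _ => by ring
    have e2 : ∑ y', w y y' * (psi2 κ M k l γ p * φ y' - psi2 κ M k l γ p * φ y)
        = psi2 κ M k l γ p * ∑ y', w y y' * (φ y' - φ y) := by
      rw [Finset.mul_sum]
      exact Finset.sum_congr rfl fun p' _ => by ring
    rw [e1, e2]
    have hα : 0 ≤ ak κ k (l p.1) := le_trans (by norm_num) (ak_ge h1κ (k := k) (by omega) (l p.1))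
    have hN : 0 ≤ M * ak κ k (l p.1) * φ y := by have := hX.phi0 y; positivity
    have hγ4 : 5 * γ ≤ τ - τ' := by
      have : 5 * γ * k ≤ (τ - τ') * k := by nlinarith
      exact le_of_mul_le_mul_right this (by positivity)
    obtain ⟨q, b, i⟩ := p
    cases b
    · simp only [Bool.false_eq_true, if_false, add_zero, psi2, sg, mul_one] at h1 ⊢
      have h3 : γ * (32 * k + 1) ≤ τ := by nlinarith
      have h4 := mul_le_mul_of_nonneg_left h3 hN
      nlinarith
    · simp only [if_true, psi2, sg] at h1 h2 ⊢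
      have h3 : γ * (32 * k * -1 + 1) + (1 + γ) * (τ' * 2) ≤ τ * (1 + γ) := by nlinarith
      have h4 := mul_le_mul_of_nonneg_left h3 hN
      nlinarith
  · simp only [psi2, hQ.lev0, Bool.false_eq_true, if_false, add_zero, mul_one]
    exact mul_le_mul (ak_zero_le h0κ hk) hX.gain (hX.phi0 o) (by linarith)
  · have key : ∀ z : (Q × (Bool × Fin M)) × (X × X),
        (if psi2 κ M k l γ z.1 * φ z.2.2 < 1 then (1:ℝ) else 0)
          ≤ (if l z.1.1 < k then 1 else 0) + (if φ z.2.2 < 1 then 1 else 0) := by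
      intro z
      split_ifs with h1 h2 h3 <;> try norm_num
      exfalso
      have h4 : 1 ≤ psi2 κ M k l γ z.1 := by
        simp only [psi2, ak_far (not_lt.mp h2)]
        split_ifs <;> linarith
      nlinarith [not_lt.mp ‹¬ φ z.2.2 < 1›]
    refine le_trans (Finset.sum_le_sum fun z _ => key z) ?_
    rw [Finset.sum_add_distrib]
    have s1 : ∀ F : Q → ℝ, ∑ z : (Q × (Bool × Fin M)) × (X × X), F z.1.1
        = 2 * M * Fintype.card X * Fintype.card X * ∑ q, F q := by
      intro F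
      simp only [Fintype.sum_prod_type, Finset.sum_const, Finset.card_univ, nsmul_eq_mul,
        ← Finset.mul_sum, Fintype.card_prod, Fintype.card_bool, Fintype.card_fin]
      push_cast
      ring
    have s2 : ∀ F : X → ℝ, ∑ z : (Q × (Bool × Fin M)) × (X × X), F z.2.2
        = 2 * M * Fintype.card X * Fintype.card Q * ∑ q, F q := by
      intro F
      simp only [Fintype.sum_prod_type, Finset.sum_const, Finset.card_univ, nsmul_eq_mul,
        Fintype.card_prod, Fintype.card_bool, Fintype.card_fin]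
      push_cast
      ring
    rw [s1 (fun q => if l q < k then 1 else 0), s2 (fun y => if φ y < 1 then 1 else 0)]
    simp only [Fintype.card_prod, Fintype.card_bool, Fintype.card_fin]
    push_cast
    have h1 := hQ.vol
    have h2 := hX.bad
    have h3 : (8:ℝ) / 16 ^ k ≤ η := by
      rw [div_le_iff₀ (by positivity)]
      have : (k:ℝ) ≤ 16 ^ k := by
        have := Nat.lt_pow_self (n := k) (show 1 < 16 by norm_num)
        exact_mod_cast this.le
      nlinarith
    set nQ : ℝ := (Fintype.card Q : ℝ)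
    set nX : ℝ := (Fintype.card X : ℝ)
    have hnQ : 0 ≤ nQ := by positivity
    have hnX : 0 ≤ nX := by positivity
    have h4 := h1.trans (mul_le_mul_of_nonneg_right h3 hnQ)
    have h5 := mul_le_mul_of_nonneg_left h4 (show 0 ≤ 2 * M * nX * nX by positivity)
    have h6 := mul_le_mul_of_nonneg_left h2 (show 0 ≤ 2 * M * nX * nQ by positivity)
    have h7 : 0 ≤ η * (M * nX * nX * nQ) := by positivity
    nlinarith

theorem exists_stage2 (h0κ : 0 ≤ κ) (h1κ : κ ≤ 1) (j : ℕ) :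
    ∀ (M : ℕ), 1 ≤ M → ∀ τ η Λ : ℝ, 1 < τ → τ ≤ 2 → 0 < η →
    (M : ℝ) ≤ Λ → 1 ≤ Λ * (τ - 1) → 1 ≤ Λ * η →
    ∃ (X : Type) (_ : Fintype X) (a w : X → X → ℝ) (D : ℝ) (φ : X → ℝ) (o : X),
      Stage X a w D φ o (16 * τ / M) (τ * M) (Real.exp η) ((1 - κ / 3072) ^ j) η ∧
        Extra κ X a w ∧ 0 ≤ D ∧ (j = 0 ∨ 1 ≤ D) ∧ D + 1 ≤ (4096 * Λ ^ 3 * 64 ^ j) ^ j ∧
        (Fintype.card X : ℝ) ≤ Real.exp ((2 ^ j - 1) * D) ∧ (2:ℝ) ^ j ≤ Fintype.card X := by
  induction j with
  | zero =>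
    intro M hM τ η Λ h1 h2 hη _ _ _
    refine ⟨Unit, inferInstance, fun _ _ => 0, fun _ _ => 0, 0, fun _ => 1, (), ?_,
      ⟨by simp, by simp, inferInstance, by simp⟩, le_rfl, Or.inl rfl, by simp, by simp, by simp⟩
    refine ⟨by simp, by simp, by simp, by simp, fun x y => ⟨Equiv.refl _, rfl, by simp⟩,
      by simp, by simp, by simp, ?_, by simp, ?_, by simp, by simp [hη.le]⟩
    · refine (cert_unit _).mono (fun f => by simp [form]) le_rfl ?_
      linarith [Real.add_one_le_exp η]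
    · intro x
      simp only [zero_mul, Finset.sum_const_zero, mul_one]
      positivity
  | succ j ih =>
    intro M hM τ η Λ h1 h2 hη hΛ1 hΛ2 hΛ3
    have hM0 : (1:ℝ) ≤ M := by exact_mod_cast hM
    have hΛ0 : 1 ≤ Λ := hM0.trans hΛ1
    obtain ⟨X, hX, a, w, D, φ, o, hS, hE, hD, -, hDle, hcle, hcge⟩ :=
      ih (2 * M) (by omega) ((1 + τ) / 2) (η / 4) (4 * Λ)
      (by linarith) (by linarith) (by positivity) (by push_cast; linarith) (by nlinarith)
      (by linarith)
    set B : ℝ := 2 + D * (1 + 1 / (2 * (τ / ((1 + τ) / 2) - 1)))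
      + (M + 8) / (η / 4) + 1 / (τ - (1 + τ) / 2) with hB
    set k : ℕ := ⌈B⌉₊ with hkdef
    have hk : B ≤ k := Nat.le_ceil B
    have hε : 0 < 2 * (τ / ((1 + τ) / 2) - 1) := by
      have : 1 < τ / ((1 + τ) / 2) := by rw [lt_div_iff₀ (by linarith)]; linarith
      linarith
    have p1 : 0 ≤ D * (1 + 1 / (2 * (τ / ((1 + τ) / 2) - 1))) := by positivity
    have p2 : 0 ≤ (M + 8) / (η / 4) := by positivity
    have p3 : 0 < τ - (1 + τ) / 2 := by linarith
    have p4 : 0 ≤ 1 / (τ - (1 + τ) / 2) := by positivity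
    have hk2 : 2 ≤ k := by
      have : (2:ℝ) ≤ k := by linarith
      exact_mod_cast this
    have q1 : (M + 8 : ℝ) ≤ η / 4 * k := by
      have : (M + 8) / (η / 4) ≤ k := by linarith
      rw [div_le_iff₀ (by positivity)] at this
      linarith
    have q2 : 1 ≤ (τ - (1 + τ) / 2) * k := by
      have : 1 / (τ - (1 + τ) / 2) ≤ k := by linarith
      rw [div_le_iff₀ p3] at this
      linarith
    have r1 : 1 / (2 * (τ / ((1 + τ) / 2) - 1)) ≤ 2 * Λ := by
      have e : 2 * (τ / ((1 + τ) / 2) - 1) = 2 * (τ - 1) / (1 + τ) := by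
        field_simp
        ring
      rw [e, one_div_div, div_le_iff₀ (by linarith)]
      nlinarith
    have r2 : (M + 8) / (η / 4) ≤ 36 * Λ ^ 2 := by
      rw [div_le_iff₀ (by positivity)]
      have : 9 * Λ * 1 ≤ 9 * Λ * (Λ * η) := mul_le_mul_of_nonneg_left hΛ3 (by positivity)
      nlinarith
    have r3 : 1 / (τ - (1 + τ) / 2) ≤ 2 * Λ := by
      rw [div_le_iff₀ p3]
      nlinarith
    have r4 : (k : ℝ) ≤ 41 * Λ ^ 2 * (D + 1) := by
      have a1 : (k : ℝ) ≤ B + 1 := (Nat.ceil_lt_add_one (by positivity)).le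
      have a2 : D * (1 + 1 / (2 * (τ / ((1 + τ) / 2) - 1))) ≤ D * (3 * Λ ^ 2) :=
        mul_le_mul_of_nonneg_left (by nlinarith) hD
      have a3 : 0 ≤ Λ ^ 2 * D := by positivity
      nlinarith
    obtain ⟨Q, hQ, _, aQ, l, oQ, hDE, hinv⟩ := exists_dirExp_inv k hk2
    push_cast at hS
    have := stage_step2 h0κ h1κ hDE hk2 hM (τ := τ) (by positivity)
      (pow_nonneg (by linarith) _) (by linarith)
      (by linarith) h2 hD hS (by linarith) (by linarith) (by linarith) q2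
    rw [show 4 * (η / 4) = η by ring, ← pow_succ'] at this
    have hk0 : (2:ℝ) ≤ k := by exact_mod_cast hk2
    have hpos : (1:ℝ) ≤ 64 * k * M + D := by nlinarith
    have haQ0 : ∀ x y, 0 ≤ aQ x y := fun x y => by rcases hDE.zo x y with h | h <;> simp [h]
    have hNZ : NeZero M := ⟨by omega⟩
    have hcard : (Fintype.card ((Q × (Bool × Fin M)) × (X × X)) : ℝ)
        = 2 ^ (16 * k) * (2 * M) * (Fintype.card X * Fintype.card X) := by
      simp only [Fintype.card_prod, Fintype.card_bool, Fintype.card_fin]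
      push_cast
      rw [hDE.card]
    refine ⟨_, inferInstance, _, _, _, _, _, this, ⟨comb_mono _ (fun p p' => ?_) hE.lo,
      comb_mono _ (fun p p' => ?_) hE.hi, ?_⟩, by linarith, Or.inr hpos, ?_, ?_, ?_⟩
    · have := mul_le_mul_of_nonneg_left
        (vw_factor2 h0κ (k := k) (m := l p.1) (m' := l p'.1) p.2.1 p'.2.1).1 (haQ0 p.1 p'.1)
      simp only [vw2]
      linarith
    · have := mul_le_mul_of_nonneg_left
        (vw_factor2 h0κ (k := k) (m := l p.1) (m' := l p'.1) p.2.1 p'.2.1).2 (haQ0 p.1 p'.1)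
      simp only [vw2]
      linarith
    · exact comb_cay _ rfl (fun p p' => rfl) (fun g p p' => hinv _ _ _) hE.cay
    · have a1 : (k : ℝ) * M ≤ 41 * Λ ^ 2 * (D + 1) * Λ :=
        mul_le_mul r4 hΛ1 (by positivity) (by positivity)
      have a2 : (1:ℝ) ≤ Λ ^ 3 := one_le_pow₀ hΛ0
      have a3 : 64 * k * M + D + 1 ≤ 4096 * Λ ^ 3 * (D + 1) := by nlinarith
      have a4 : 4096 * (4 * Λ) ^ 3 * 64 ^ j = 4096 * Λ ^ 3 * 64 ^ (j + 1) := by ring
      rw [a4] at hDle
      have a5 : 4096 * Λ ^ 3 ≤ 4096 * Λ ^ 3 * 64 ^ (j + 1) :=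
        le_mul_of_one_le_right (by positivity) (one_le_pow₀ (by norm_num))
      rw [pow_succ' _ j]
      exact a3.trans (mul_le_mul a5 hDle (by positivity) (by positivity))
    · rw [hcard]
      have a1 : (2:ℝ) ^ (16 * k) ≤ Real.exp (16 * k) := by
        have : (2:ℝ) ≤ Real.exp 1 := by linarith [Real.add_one_le_exp 1]
        have h2 := pow_le_pow_left₀ (by norm_num) this (16 * k)
        rw [← Real.exp_nat_mul] at h2
        simpa using h2
      have a2 : (2 * M : ℝ) ≤ Real.exp (2 * M) := by linarith [Real.add_one_le_exp (2 * M)]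
      have a3 := mul_le_mul (mul_le_mul a1 a2 (by positivity) (by positivity))
        (mul_le_mul hcle hcle (by positivity) (by positivity)) (by positivity) (by positivity)
      refine a3.trans ?_
      simp only [← Real.exp_add]
      rw [Real.exp_le_exp, pow_succ]
      have a4 : (1:ℝ) ≤ 2 ^ j := one_le_pow₀ (by norm_num)
      have a5 : 16 * k + 2 * M ≤ 64 * (k:ℝ) * M := by nlinarith
      have a6 : 0 ≤ (2 ^ j - 1) * (64 * (k:ℝ) * M) := mul_nonneg (by linarith) (by positivity)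
      nlinarith
    · rw [hcard, pow_succ]
      have a1 : (1:ℝ) ≤ 2 ^ (16 * k) := one_le_pow₀ (by norm_num)
      have a4 : (1:ℝ) ≤ 2 ^ j := one_le_pow₀ (by norm_num)
      have a2 : (2:ℝ) ^ j * 1 ≤ Fintype.card X * Fintype.card X :=
        mul_le_mul hcge (by linarith) (by norm_num) (by positivity)
      have a3 : (1:ℝ) * 2 ≤ 2 ^ (16 * k) * (2 * M) :=
        mul_le_mul a1 (by linarith) (by norm_num) (by positivity)
      have := mul_le_mul a3 a2 (by positivity) (by positivity)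
      linarith

end Pool.Agent.P.MP_78d095_pr.H
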